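import Pool.Agent.H94.G4.W6p
import Pool.Agent.H32.G4.Pcb
import Pool.Agent.H35.G4.DisX

/-!
# The words `qmqmqm` and `qmqqqm` in a region
-/

set_option autoImplicit false

namespace Pool.Agent.H94.G4

open Relation Pool.Agent.H13.DA Pool.Agent.H72.G4 Pool.Agent.H21.G4 Pool.Agent.H13.G4
  Pool.Agent.H65.G4 Pool.Agent.H32.G4 Pool.Agent.H96.G4

variable {V : Type*} [DecidableEq V] {T X : Finset (V × V × V)} {D : V → V → Prop} {a b c : V}
  {Z : List V}

/-- **Rows `Z6` and `W6` in a region**: a quad corner between two mid corners is not open. -/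
theorem row_W6 [Infinite V] (hM : MCw T D a b c) (hT : Ts T D a b c) (hC : Ctx T X D a b c Z)
    {u : V} (hu : In X D Z u) {x : Fin 6 → V} {w : Fin 6 → CT} (R : Rot T D u 5 x w) (j : Fin 6)
    (w1 : w (j + 1) = CT.m) (w2 : w (j + 2) = CT.q) (w4 : w (j + 4) = CT.q)
    (w5 : w (j + 5) = CT.m) : PCok T X D Z u x j :=
  pc_W6 hM hT (fun _ hv => (in_inr hv).tr hT (ctx_cx5 hM hT hC)) hu (hC.good u hu.1 hu.2.1 hu.2.2)
    (fun _ _ _ _ Q ho hs hi h1 h2 => pcb hM hT hC hu ho hs hi Q h1 h2)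
    (fun _ _ _ _ Q ho hs hi h1 h2 _ _ k1 k2 k3 k4 k5 k6 k7 =>
      no_far hM hT hC hu ho hs hi Q h1 h2 k1 k2 k3 k4 k5 k6 k7) R j w1 w2 w4 w5

/-- **Rows `Z6` and `W6`** for the list `rt w j` of the word started at corner `j`. -/
theorem row_W6_rt [Infinite V] (hM : MCw T D a b c) (hT : Ts T D a b c)
    (hC : Ctx T X D a b c Z) {u : V} (hu : In X D Z u) {n : ℕ} {x : Fin (n + 1) → V}
    {w : Fin (n + 1) → CT} (R : Rot T D u n x w) (j : Fin (n + 1))
    (hj : Pool.Agent.H35.G4.rt w j = [CT.q, CT.m, CT.q, CT.m, CT.q, CT.m] ∨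
      Pool.Agent.H35.G4.rt w j = [CT.q, CT.m, CT.q, CT.q, CT.q, CT.m]) :
    PCok T X D Z u x j := by
  have hl : (Pool.Agent.H35.G4.rt w j).length = n + 1 := by
    simp [Pool.Agent.H35.G4.rt]
  have hn : n = 5 := by
    rcases hj with h | h <;> rw [h] at hl <;> simp at hl <;> omega
  subst hn
  have e : Pool.Agent.H35.G4.rt w j =
      [w (j + 0), w (j + 1), w (j + 2), w (j + 3), w (j + 4), w (j + 5)] := by
    simp [Pool.Agent.H35.G4.rt, List.ofFn_succ]
  rw [e] at hj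
  rcases hj with h | h <;> simp only [List.cons.injEq, and_true] at h
  · exact row_W6 hM hT hC hu R j h.2.1 h.2.2.1 h.2.2.2.2.1 h.2.2.2.2.2
  · exact row_W6 hM hT hC hu R j h.2.1 h.2.2.1 h.2.2.2.2.1 h.2.2.2.2.2

/-- The words of the askers, `hPC` of `exists_donor` (H35/G4/DisG). -/
theorem row_W6_pca [Infinite V] (hM : MCw T D a b c) (hT : Ts T D a b c)
    (hC : Ctx T X D a b c Z) (u : V) (hu : In X D Z u) (n : ℕ) (x : Fin (n + 1) → V)
    (w : Fin (n + 1) → CT) (R : Rot T D u n x w)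
    (h : List.ofFn w ∈
      [[CT.q, CT.m, CT.q, CT.m, CT.q, CT.m], [CT.q, CT.m, CT.q, CT.q, CT.q, CT.m]]) :
    PCok T X D Z u x 0 := by
  refine row_W6_rt hM hT hC hu R 0 ?_
  have e : Pool.Agent.H35.G4.rt w 0 = List.ofFn w := by
    simp [Pool.Agent.H35.G4.rt]
  rw [e]
  simpa using h

end Pool.Agent.H94.G4
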