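import Pool.Agent.H65.G4.Pc
import Pool.Agent.H21.G4.Tools

/-!
# Contraction of a whole directed quad

`subst_sto` : a block in the place of a vertex.  `sub_lift` : the four vertices of a directed quad
put as a block in the place of `w`.  `sub_fill` : a quad without directed ears of length two and
three is contractible, so it is not in a minimal counterexample.
-/

set_option autoImplicit false

namespace Pool.Agent.H94.G4

open Relation Pool.Agent.H13.DA Pool.Agent.H72.G4 Pool.Agent.H21.G4 Pool.Agent.H13.G4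
  Pool.Agent.H65.G4

section order

variable {V : Type*}

/-- the order `r` with the set `B` as a block in the place of `w`, ordered by `m` -/
def Blk (B : V → Prop) (w : V) (m : V → ℕ) (r : V → V → Prop) (x y : V) : Prop :=
  (¬ (B x ∧ B y) ∧ r (rp B w x) (rp B w y)) ∨ (B x ∧ B y ∧ m x < m y)

theorem subst_sto {B : V → Prop} {w : V} (hw : B w) {r : V → V → Prop} (hr : STO r) {m : V → ℕ}
    (hm : ∀ x y, B x → B y → m x = m y → x = y) : STO (Blk B w m r) := by
  refine ⟨?_, ?_, ?_⟩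
  · rintro x (⟨_, h⟩ | ⟨_, _, h⟩)
    · exact hr.irr _ h
    · exact lt_irrefl _ h
  · rintro x y z (⟨h1, h2⟩ | ⟨h1, h2, h3⟩) (⟨k1, k2⟩ | ⟨k1, k2, k3⟩)
    · have e := hr.tr _ _ _ h2 k2
      refine Or.inl ⟨?_, e⟩
      rintro ⟨g1, g2⟩
      rw [rp_in g1, rp_in g2] at e
      exact hr.irr _ e
    · refine Or.inl ⟨fun g => h1 ⟨g.1, k1⟩, ?_⟩
      rw [rp_in k1] at h2
      rw [rp_in k2]
      exact h2
    · refine Or.inl ⟨fun g => k1 ⟨h2, g.2⟩, ?_⟩
      rw [rp_in h2] at k2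
      rw [rp_in h1]
      exact k2
    · exact Or.inr ⟨h1, k2, h3.trans k3⟩
  · intro x y
    by_cases hB : B x ∧ B y
    · rcases lt_trichotomy (m x) (m y) with h | h | h
      · exact Or.inl (Or.inr ⟨hB.1, hB.2, h⟩)
      · exact Or.inr (Or.inl (hm x y hB.1 hB.2 h))
      · exact Or.inr (Or.inr (Or.inr ⟨hB.2, hB.1, h⟩))
    · rcases hr.tot (rp B w x) (rp B w y) with h | h | h
      · exact Or.inl (Or.inl ⟨hB, h⟩)
      · refine Or.inr (Or.inl ?_)
        by_cases hx : B x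
        · have hy : ¬ B y := fun hy => hB ⟨hx, hy⟩
          rw [rp_in hx, rp_out hy] at h
          exact absurd (h ▸ hw) hy
        · by_cases hy : B y
          · rw [rp_out hx, rp_in hy] at h
            exact absurd (h ▸ hw) hx
          · rwa [rp_out hx, rp_out hy] at h
      · exact Or.inr (Or.inr (Or.inl ⟨fun g => hB ⟨g.2, g.1⟩, h⟩))

theorem blk_ex {B : V → Prop} {w : V} {m : Fin 3 → V → ℕ} {O : Fin 3 → V → V → Prop} {x y : V}
    (hB : ¬ (B x ∧ B y)) (h : Ex O (rp B w x) (rp B w y)) :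
    Ex (fun k => Blk B w (m k) (O k)) x y := by
  obtain ⟨k, h1, h2⟩ := h
  exact ⟨k, Or.inl ⟨fun g => hB ⟨g.2, g.1⟩, h1⟩, fun j hj => Or.inl ⟨hB, h2 j hj⟩⟩

theorem blk_in {B : V → Prop} {w : V} {m : Fin 3 → V → ℕ} {O : Fin 3 → V → V → Prop} {x y : V}
    (hx : B x) (hy : B y) (k : Fin 3) (h1 : m k y < m k x) (h2 : ∀ j, j ≠ k → m j x < m j y) :
    Ex (fun k => Blk B w (m k) (O k)) x y :=
  ⟨k, Or.inr ⟨hy, hx, h1⟩, fun j hj => Or.inr ⟨hx, hy, h2 j hj⟩⟩

/-- the four vertices of the quad -/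
def Bq (u o s i : V) (x : V) : Prop := x = u ∨ x = o ∨ x = s ∨ x = i

open Classical in
/-- three orders of `u, o, s, i` in which the directed quad is exact -/
noncomputable def rk (u o s : V) (k : Fin 3) (x : V) : ℕ :=
  if x = u then ![0, 3, 2] k else if x = o then ![1, 0, 3] k else
    if x = s then ![2, 1, 1] k else ![3, 2, 0] k

end order

section digraph

variable {V : Type*} [DecidableEq V] {T : Finset (V × V × V)} {D : V → V → Prop} {a b c : V}
  {u o s i d w y1 y2 : V}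

omit [DecidableEq V] in
/-- **The block lift.** -/
theorem sub_lift (hT : Ts T D a b c) (h : Qd T D u o s i d) (hp : Prm o s i w y1 y2)
    {E : V → V → Prop}
    (hE : ∀ x y, D x y → ¬ (Bq u o s i x ∧ Bq u o s i y) →
      E (rp (Bq u o s i) w x) (rp (Bq u o s i) w y)) :
    ∀ O : Fin 3 → V → V → Prop, (∀ i, STO (O i)) → (∀ x y, E x y → Ex O x y) →
      ∃ O' : Fin 3 → V → V → Prop, (∀ i, STO (O' i)) ∧ (∀ x y, D x y → Ex O' x y) ∧
        ∀ i x y, x ≠ u → y ≠ u → x ≠ y1 → y ≠ y1 → x ≠ y2 → y ≠ y2 →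
          (O' i x y ↔ O i x y) := by
  intro O hO hX
  obtain ⟨e1, e2, e3, -, e5, e6, -, e8, -, -⟩ := h.ne hT
  obtain ⟨m1, -, -⟩ := hp.mem
  have has := hT.pl.asymm
  have htr := hT.pl.tri
  have irr : ∀ x, ¬ D x x := fun x k => has x x k k
  have hw : Bq u o s i w := Or.inr m1
  have ru : ∀ k, rk u o s k u = ![0, 3, 2] k := fun k => by
    unfold rk
    rw [if_pos rfl]
  have ro : ∀ k, rk u o s k o = ![1, 0, 3] k := fun k => by
    unfold rk
    rw [if_neg e1.symm, if_pos rfl]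
  have rs : ∀ k, rk u o s k s = ![2, 1, 1] k := fun k => by
    unfold rk
    rw [if_neg e2.symm, if_neg e5.symm, if_pos rfl]
  have ri : ∀ k, rk u o s k i = ![3, 2, 0] k := fun k => by
    unfold rk
    rw [if_neg e3.symm, if_neg e6.symm, if_neg e8.symm]
  have hinj : ∀ k, ∀ x y, Bq u o s i x → Bq u o s i y → rk u o s k x = rk u o s k y → x = y := by
    rintro k x y (rfl | rfl | rfl | rfl) (rfl | rfl | rfl | rfl) g
    · rfl
    · rw [ru, ro] at g; exfalso; revert g; fin_cases k <;> decide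
    · rw [ru, rs] at g; exfalso; revert g; fin_cases k <;> decide
    · rw [ru, ri] at g; exfalso; revert g; fin_cases k <;> decide
    · rw [ru, ro] at g; exfalso; revert g; fin_cases k <;> decide
    · rfl
    · rw [ro, rs] at g; exfalso; revert g; fin_cases k <;> decide
    · rw [ro, ri] at g; exfalso; revert g; fin_cases k <;> decide
    · rw [ru, rs] at g; exfalso; revert g; fin_cases k <;> decide
    · rw [ro, rs] at g; exfalso; revert g; fin_cases k <;> decide
    · rfl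
    · rw [rs, ri] at g; exfalso; revert g; fin_cases k <;> decide
    · rw [ru, ri] at g; exfalso; revert g; fin_cases k <;> decide
    · rw [ro, ri] at g; exfalso; revert g; fin_cases k <;> decide
    · rw [rs, ri] at g; exfalso; revert g; fin_cases k <;> decide
    · rfl
  refine ⟨fun k => Blk (Bq u o s i) w (rk u o s k) (O k), fun k => subst_sto hw (hO k) (hinj k),
    ?_, ?_⟩
  · intro x y hxy
    by_cases hB : Bq u o s i x ∧ Bq u o s i y
    · have c3 : ∀ (P : Fin 3 → Prop), P 0 → P 1 → P 2 → ∀ k, P k := by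
        intro P p0 p1 p2 k
        fin_cases k
        · exact p0
        · exact p1
        · exact p2
      obtain ⟨hx, hy⟩ := hB
      have key : (x = u ∧ y = o) ∨ (x = o ∧ y = s) ∨ (x = s ∧ y = i) ∨ (x = i ∧ y = u) := by
        rcases hx with rfl | rfl | rfl | rfl <;> rcases hy with rfl | rfl | rfl | rfl
        · exact absurd hxy (irr _)
        · exact Or.inl ⟨rfl, rfl⟩
        · exact absurd h.iu (htr _ _ _ hxy h.si)
        · exact absurd hxy (has _ _ h.iu)
        · exact absurd hxy (has _ _ h.uo)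
        · exact absurd hxy (irr _)
        · exact Or.inr (Or.inl ⟨rfl, rfl⟩)
        · exact absurd h.uo (htr _ _ _ hxy h.iu)
        · exact absurd hxy (htr _ _ _ h.uo h.os)
        · exact absurd hxy (has _ _ h.os)
        · exact absurd hxy (irr _)
        · exact Or.inr (Or.inr (Or.inl ⟨rfl, rfl⟩))
        · exact Or.inr (Or.inr (Or.inr ⟨rfl, rfl⟩))
        · exact absurd hxy (htr _ _ _ h.os h.si)
        · exact absurd hxy (has _ _ h.si)
        · exact absurd hxy (irr _)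
      rcases key with ⟨rfl, rfl⟩ | ⟨rfl, rfl⟩ | ⟨rfl, rfl⟩ | ⟨rfl, rfl⟩
      · refine blk_in hx hy 1 (by rw [ru, ro]; decide) (c3 _ ?_ ?_ ?_) <;> intro g <;> rw [ru, ro]
        · decide
        · exact absurd rfl g
        · decide
      · refine blk_in hx hy 2 (by rw [ro, rs]; decide) (c3 _ ?_ ?_ ?_) <;> intro g <;> rw [ro, rs]
        · decide
        · decide
        · exact absurd rfl g
      · refine blk_in hx hy 2 (by rw [rs, ri]; decide) (c3 _ ?_ ?_ ?_) <;> intro g <;> rw [rs, ri]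
        · decide
        · decide
        · exact absurd rfl g
      · refine blk_in hx hy 0 (by rw [ru, ri]; decide) (c3 _ ?_ ?_ ?_) <;> intro g <;> rw [ru, ri]
        · exact absurd rfl g
        · decide
        · decide
    · exact blk_ex hB (hX _ _ (hE x y hxy hB))
  · intro k x y hxu hyu hx1 hy1 hx2 hy2
    have out : ∀ z, z ≠ u → z ≠ y1 → z ≠ y2 → Bq u o s i z → z = w := by
      rintro z z1 z2 z3 (g | g)
      · exact absurd g z1
      · have hz : Wq o s i d z := by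
          rcases g with g | g | g
          · exact Or.inl g
          · exact Or.inr (Or.inl g)
          · exact Or.inr (Or.inr (Or.inl g))
        rcases (hp.iff d z).1 hz with ((g' | g') | g') | g'
        · exact g'
        · exfalso
          rcases g with g | g | g
          · exact h.nd (g' ▸ g ▸ ⟨_, Or.inr h.uo⟩)
          · exact h.nd (g' ▸ g ▸ ⟨_, Or.inr h.os⟩)
          · exact h.nd (g' ▸ g ▸ ⟨_, Or.inr h.si⟩)
        · exact absurd g' z2
        · exact absurd g' z3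
    have rpx : ∀ z, z ≠ u → z ≠ y1 → z ≠ y2 → rp (Bq u o s i) w z = z := by
      intro z z1 z2 z3
      by_cases g : Bq u o s i z
      · rw [rp_in g]
        exact (out z z1 z2 z3 g).symm
      · exact rp_out g
    show Blk (Bq u o s i) w (rk u o s k) (O k) x y ↔ O k x y
    unfold Blk
    rw [rpx x hxu hx1 hx2, rpx y hyu hy1 hy2]
    constructor
    · rintro (⟨_, g⟩ | ⟨g1, g2, g3⟩)
      · exact g
      · rw [out x hxu hx1 hx2 g1, out y hyu hy1 hy2 g2] at g3
        exact absurd g3 (lt_irrefl _)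
    · intro g
      refine Or.inl ⟨?_, g⟩
      rintro ⟨g1, g2⟩
      rw [out x hxu hx1 hx2 g1, out y hyu hy1 hy2 g2] at g
      exact (hO k).irr _ g

/-- **Contraction of a directed quad** without directed ears of length two and three. -/
theorem sub_fill [Infinite V] (hM : MCw T D a b c) (hT : Ts T D a b c) (h : Qd T D u o s i d)
    (hu : ¬ Tr a b c u)
    (hp : Prm o s i w y1 y2) (hy1 : ¬ Tr a b c y1) (hy2 : ¬ Tr a b c y2)
    (n1 : ∀ q, Adj T o q → Adj T i q → q = u ∨ q = s ∨ q = d)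
    (n2 : ∀ q, Adj T u q → Adj T s q → q = o ∨ q = i ∨ q = d)
    (ear2 : ∀ x y z, Bq u o s i x → ¬ Bq u o s i y → Bq u o s i z → D x y → D y z → False)
    (ear3 : ∀ x y z t, Bq u o s i x → ¬ Bq u o s i y → ¬ Bq u o s i z → Bq u o s i t →
      D x y → D y z → D z t → False) : False := by
  obtain ⟨e1, e2, e3, e4, -⟩ := h.ne hT
  obtain ⟨m1, -, -⟩ := hp.mem
  have has := hT.pl.asymm
  have irr : ∀ x, ¬ D x x := fun x k => has x x k k
  have hwB : Bq u o s i w := Or.inr m1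
  have hBu : Bq u o s i u := Or.inl rfl
  have hwW : Wq o s i d w := by
    rcases m1 with g | g | g
    · exact Or.inl g
    · exact Or.inr (Or.inl g)
    · exact Or.inr (Or.inr (Or.inl g))
  have huw : w ≠ u := by
    rcases m1 with rfl | rfl | rfl
    · exact e1.symm
    · exact e2.symm
    · exact e3.symm
  have hwr : Re D w := by
    rcases m1 with rfl | rfl | rfl
    · exact ⟨s, Or.inl h.os⟩
    · exact ⟨i, Or.inl h.si⟩
    · exact ⟨u, Or.inl h.iu⟩
  have nd1 : ∀ x y, D x y → x ≠ d := fun x y g e => h.nd (e ▸ ⟨y, Or.inl g⟩)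
  have nd2 : ∀ x y, D x y → y ≠ d := fun x y g e => h.nd (e ▸ ⟨x, Or.inr g⟩)
  have WB : ∀ x, Wq o s i d x → x ≠ d → Bq u o s i x := by
    rintro x (g | g | g | g) hx
    · exact Or.inr (Or.inl g)
    · exact Or.inr (Or.inr (Or.inl g))
    · exact Or.inr (Or.inr (Or.inr g))
    · exact absurd g hx
  have BW : ∀ x, ¬ Wq o s i d x → x ≠ u → ¬ Bq u o s i x := by
    rintro x hx hxu (g | g | g | g)
    · exact hxu g
    · exact hx (Or.inl g)
    · exact hx (Or.inr (Or.inl g))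
    · exact hx (Or.inr (Or.inr (Or.inl g)))
  have BW' : ∀ x, ¬ Bq u o s i x → x ≠ d → ¬ Wq o s i d x := fun x hx hxd g => hx (WB x g hxd)
  -- the arcs of the filled digraph
  set A : V → V → Prop := fun x y =>
    (x = w ∧ D u y ∧ ¬ Bq u o s i y) ∨ (y = w ∧ D x u ∧ ¬ Bq u o s i x) with hAdef
  have C1 : ∀ x y, Fil D u A x y → Wq o s i d x → ¬ Wq o s i d y →
      ∃ x', Bq u o s i x' ∧ D x' y ∧ ¬ Bq u o s i y := by
    rintro x y (g | ⟨g1, g2, g3⟩ | ⟨g1, g2, g3⟩) hx hy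
    · exact ⟨x, WB x hx (nd1 _ _ g.1), g.1, BW y hy g.2.2⟩
    · exact ⟨u, hBu, g2, g3⟩
    · exact absurd (g1 ▸ hwW) hy
  have C2 : ∀ y z, Fil D u A y z → ¬ Wq o s i d y → Wq o s i d z →
      ∃ z', Bq u o s i z' ∧ D y z' ∧ ¬ Bq u o s i y := by
    rintro y z (g | ⟨g1, g2, g3⟩ | ⟨g1, g2, g3⟩) hy hz
    · exact ⟨z, WB z hz (nd2 _ _ g.1), g.1, BW y hy g.2.1⟩
    · exact absurd (g1 ▸ hwW) hy
    · exact ⟨u, hBu, g2, g3⟩
  have C3 : ∀ y z, Fil D u A y z → ¬ Wq o s i d y → ¬ Wq o s i d z → D y z := by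
    rintro y z (g | ⟨g1, g2, g3⟩ | ⟨g1, g2, g3⟩) hy hz
    · exact g.1
    · exact absurd (g1 ▸ hwW) hy
    · exact absurd (g1 ▸ hwW) hz
  refine pc_fill hM hT h hu hp hy1 hy2 n1 n2 (A := A) (p0 := w) (Or.inl rfl) ?_ ?_ ?_ ?_
  · rintro x y (⟨rfl, g2, g3⟩ | ⟨rfl, g2, g3⟩)
    · refine ⟨hwr, ⟨u, Or.inr g2⟩, huw, fun e => irr u (e ▸ g2), Or.inl ⟨rp_in hwW, y,
        hT.pl.adj _ _ g2, rfl⟩⟩
    · refine ⟨⟨u, Or.inl g2⟩, hwr, fun e => irr u (e ▸ g2), huw, Or.inr ⟨rp_in hwW, x,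
        (hT.pl.adj _ _ g2).symm, rfl⟩⟩
  · refine imd_asymm hwW ?_ ?_
    · refine fun x y g1 g2 => ?_
      rcases g1 with g1 | ⟨p1, p2, p3⟩ | ⟨p1, p2, p3⟩
      · rcases g2 with g2 | ⟨q1, q2, q3⟩ | ⟨q1, q2, q3⟩
        · exact has _ _ g1.1 g2.1
        · exact ear2 u x y hBu q3 (q1 ▸ hwB) q2 g1.1
        · exact ear2 x y u (q1 ▸ hwB) q3 hBu g1.1 q2
      · rcases g2 with g2 | ⟨q1, q2, q3⟩ | ⟨q1, q2, q3⟩
        · exact ear2 u y x hBu p3 (p1 ▸ hwB) p2 g2.1
        · exact p3 (q1 ▸ hwB)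
        · exact has _ _ p2 q2
      · rcases g2 with g2 | ⟨q1, q2, q3⟩ | ⟨q1, q2, q3⟩
        · exact ear2 y x u (p1 ▸ hwB) p3 hBu g2.1 p2
        · exact has _ _ p2 q2
        · exact p3 (q1 ▸ hwB)
    · intro x y z hx hy hz g1 g2
      obtain ⟨x', p1, p2, p3⟩ := C1 x y g1 hx hy
      obtain ⟨z', q1, q2, _⟩ := C2 y z g2 hy hz
      exact ear2 x' y z' p1 p3 q1 p2 q2
  · refine imd_tri hwW ?_ ?_
    · refine fil_tri hT.pl.tri ?_
      rintro p q z (⟨p1, p2, p3⟩ | ⟨p1, p2, p3⟩) g2 g3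
      · have hq : ¬ Wq o s i d q := BW' q p3 (nd2 _ _ p2)
        by_cases hz : Wq o s i d z
        · obtain ⟨z', k1, k2, _⟩ := C2 q z g2 hq hz
          exact ear2 u q z' hBu p3 k1 p2 k2
        · obtain ⟨z', k1, k2, k3⟩ := C2 z p g3 hz (p1 ▸ hwW)
          exact ear3 u q z z' hBu p3 k3 k1 p2 (C3 q z g2 hq hz) k2
      · have hq : ¬ Wq o s i d p := BW' p p3 (nd1 _ _ p2)
        by_cases hz : Wq o s i d z
        · obtain ⟨x', k1, k2, _⟩ := C1 z p g3 hz hq
          exact ear2 x' p u k1 p3 hBu k2 p2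
        · obtain ⟨x', k1, k2, k3⟩ := C1 q z g2 (p1 ▸ hwW) hz
          exact ear3 x' z p u k1 k3 p3 hBu k2 (C3 z p g3 hz hq) p2
    · intro x y z t hx hy hz ht g1 g2 g3
      obtain ⟨x', p1, p2, p3⟩ := C1 x y g1 hx hy
      obtain ⟨t', q1, q2, q3⟩ := C2 z t g3 hz ht
      exact ear3 x' y z t' p1 p3 q3 q1 p2 (C3 y z g2 hy hz) q2
  · refine sub_lift hT h hp ?_
    intro x y hxy hB
    have hne : rp (Bq u o s i) w x ≠ rp (Bq u o s i) w y := by
      intro e
      by_cases hx : Bq u o s i x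
      · have hy : ¬ Bq u o s i y := fun hy => hB ⟨hx, hy⟩
        rw [rp_in hx, rp_out hy] at e
        exact hy (e ▸ hwB)
      · by_cases hy : Bq u o s i y
        · rw [rp_out hx, rp_in hy] at e
          exact hx (e.symm ▸ hwB)
        · rw [rp_out hx, rp_out hy] at e
          exact irr x (e ▸ hxy)
    have rpB : ∀ z, z ≠ u → z ≠ d → rp (Wq o s i d) w z = rp (Bq u o s i) w z := by
      intro z hz hzd
      by_cases g : Wq o s i d z
      · rw [rp_in g, rp_in (WB z g hzd)]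
      · rw [rp_out g, rp_out (BW z g hz)]
    have rpu : rp (Bq u o s i) w u = w := rp_in hBu
    refine ⟨hne, ?_⟩
    by_cases hx : x = u
    · have hy : ¬ Bq u o s i y := fun hy => hB ⟨Or.inl hx, hy⟩
      have hxy' : D u y := hx ▸ hxy
      refine ⟨w, y, ?_, ?_, Or.inr (Or.inl ⟨rfl, hxy', hy⟩)⟩
      · rw [rp_in hwW, hx, rpu]
      · exact rpB y (fun e => hy (Or.inl e)) (nd2 _ _ hxy)
    · by_cases hy : y = u
      · have hx' : ¬ Bq u o s i x := fun hx' => hB ⟨hx', Or.inl hy⟩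
        have hxy' : D x u := hy ▸ hxy
        refine ⟨x, w, ?_, ?_, Or.inr (Or.inr ⟨rfl, hxy', hx'⟩)⟩
        · exact rpB x hx (nd1 _ _ hxy)
        · rw [rp_in hwW, hy, rpu]
      · exact ⟨x, y, rpB x hx (nd1 _ _ hxy), rpB y hy (nd2 _ _ hxy), Or.inl ⟨hxy, hx, hy⟩⟩

end digraph

end Pool.Agent.H94.G4
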