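import Pool.Agent.H94.G4.Sub
import Pool.Agent.H21.G4.Ear

/-!
# The words `qmqmqm` and `qmqqqm`

`u` with spokes `x0, x2, x4` out and `x1, x3, x5` in, corners `(x0,x1)`, `(x2,x3)`, `(x4,x5)`
quads, corners `(x1,x2)`, `(x5,x0)` mid, corner `(x3,x4)` mid or quad: the whole quad
`u → x0 → s → x1 → u` is contracted.
-/

set_option autoImplicit false

namespace Pool.Agent.H94.G4

open Relation Pool.Agent.H13.DA Pool.Agent.H72.G4 Pool.Agent.H21.G4 Pool.Agent.H13.G4
  Pool.Agent.H65.G4

variable {V : Type*} [DecidableEq V] {T : Finset (V × V × V)} {D : V → V → Prop} {a b c : V}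

/-- **Contraction of the quad between two mid corners** at the words `qmqmqm` and `qmqqqm`. -/
theorem red_W6 [Infinite V] (hM : MCw T D a b c) (hT : Ts T D a b c)
    {u x0 x1 x2 x3 x4 x5 s d : V} (hu : ¬ Tr a b c u) (hg : Good T D u)
    (hN : ∀ y, Ar D u y ↔ y = x0 ∨ y = x1 ∨ y = x2 ∨ y = x3 ∨ y = x4 ∨ y = x5)
    (a2 : D u x2) (a3 : D x3 u) (a4 : D u x4) (a5 : D x5 u) (h : Qd T D u x0 s x1 d)
    (no : ¬ Tr a b c x0) (ni : ¬ Tr a b c x1) (r12 : D x1 x2) (r50 : D x5 x0)
    (n02 : ¬ Ar D x0 x2) (n03 : ¬ Ar D x0 x3) (n04 : ¬ Ar D x0 x4) (n13 : ¬ Ar D x1 x3)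
    (n14 : ¬ Ar D x1 x4) (n15 : ¬ Ar D x1 x5) (n23 : ¬ Ar D x2 x3) (n45 : ¬ Ar D x4 x5)
    (e04 : x0 ≠ x4) (e13 : x1 ≠ x3)
    (c14 : Ncd T D u x1 x4) (c30 : Ncd T D u x3 x0)
    (n1 : ∀ q, Adj T x0 q → Adj T x1 q → q = u ∨ q = s ∨ q = d)
    (n2 : ∀ q, Adj T u q → Adj T s q → q = x0 ∨ q = x1 ∨ q = d)
    (ear2 : ∀ x y z, Wq x0 s x1 d x → ¬ Wq x0 s x1 d y → y ≠ u → Wq x0 s x1 d z → D x y → ¬ D y z)
    (ear3 : ∀ x y z t, Wq x0 s x1 d x → ¬ Wq x0 s x1 d y → ¬ Wq x0 s x1 d z → y ≠ u → z ≠ u →
      Wq x0 s x1 d t → D x y → D y z → ¬ D z t)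
    (far : ∀ n m, (n = x3 ∨ n = x4) → m ≠ u → ¬ Wq x0 s x1 d m → ¬ Ar D u m → Ar D n m →
      ¬ Ar D m s) :
    False := by
  have as := hT.pl.asymm
  have htr := hT.pl.tri
  have irr : ∀ x, ¬ D x x := fun x k => as x x k k
  have a0 : D u x0 := h.uo
  have a1 : D x1 u := h.iu
  have W0 : Wq x0 s x1 d x0 := Or.inl rfl
  have W1 : Wq x0 s x1 d x1 := Or.inr (Or.inr (Or.inl rfl))
  have nd1 : ∀ x y, D x y → x ≠ d := fun x y g e => h.nd (e ▸ ⟨y, Or.inl g⟩)
  have nd2 : ∀ x y, D x y → y ≠ d := fun x y g e => h.nd (e ▸ ⟨x, Or.inr g⟩)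
  have BW' : ∀ x, ¬ Bq u x0 s x1 x → x ≠ d → ¬ Wq x0 s x1 d x := by
    rintro x hx hxd (g | g | g | g)
    · exact hx (Or.inr (Or.inl g))
    · exact hx (Or.inr (Or.inr (Or.inl g)))
    · exact hx (Or.inr (Or.inr (Or.inr g)))
    · exact hxd g
  have bu : ∀ x, ¬ Bq u x0 s x1 x → x ≠ u := fun x hx e => hx (Or.inl e)
  have bW : ∀ x, Bq u x0 s x1 x → x = u ∨ Wq x0 s x1 d x := by
    rintro x (g | g | g | g)
    · exact Or.inl g
    · exact Or.inr (Or.inl g)
    · exact Or.inr (Or.inr (Or.inl g))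
    · exact Or.inr (Or.inr (Or.inr (Or.inl g)))
  -- the out-neighbours and the in-neighbours of `u` off the quad
  have out : ∀ y, D u y → ¬ Bq u x0 s x1 y → y = x2 ∨ y = x4 := by
    intro y hy hB
    rcases (hN y).1 (Or.inl hy) with k | k | k | k | k | k
    · exact absurd (Or.inr (Or.inl k)) hB
    · exact absurd (Or.inr (Or.inr (Or.inr k))) hB
    · exact Or.inl k
    · exact absurd (k ▸ hy) (as _ _ a3)
    · exact Or.inr k
    · exact absurd (k ▸ hy) (as _ _ a5)
  have inn : ∀ y, D y u → ¬ Bq u x0 s x1 y → y = x3 ∨ y = x5 := by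
    intro y hy hB
    rcases (hN y).1 (Or.inr hy) with k | k | k | k | k | k
    · exact absurd (Or.inr (Or.inl k)) hB
    · exact absurd (Or.inr (Or.inr (Or.inr k))) hB
    · exact absurd (k ▸ hy) (as _ _ a2)
    · exact Or.inl k
    · exact absurd (k ▸ hy) (as _ _ a4)
    · exact Or.inr k
  have us : ∀ y, Ar D u y → ¬ Bq u x0 s x1 y → ¬ Ar D s y := by
    intro y h1 h2 h3
    rcases n2 y (hT.pl.ar_adj h1) (hT.pl.ar_adj h3) with k | k | k
    · exact h2 (Or.inr (Or.inl k))
    · exact h2 (Or.inr (Or.inr (Or.inr k)))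
    · exact h.nd (k ▸ (ar_re h1).2)
  refine sub_fill (w := s) (y1 := x0) (y2 := x1) hM hT h hu
    (Or.inr (Or.inl ⟨rfl, Or.inl ⟨rfl, rfl⟩⟩)) no ni n1 n2 ?_ ?_
  · intro x y z hx hy hz h1 h2
    have yu := bu y hy
    have yW := BW' y hy (nd2 _ _ h1)
    rcases bW x hx with rfl | hx'
    · rcases hz with rfl | rfl | rfl | rfl
      · exact as _ _ h1 h2
      · rcases out y h1 hy with rfl | rfl
        · exact n02 (Or.inr h2)
        · exact n04 (Or.inr h2)
      · exact us y (Or.inl h1) hy (Or.inr h2)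
      · rcases out y h1 hy with rfl | rfl
        · exact as _ _ r12 h2
        · exact n14 (Or.inr h2)
    · rcases bW z hz with rfl | hz'
      · rcases hx with rfl | rfl | rfl | rfl
        · exact as _ _ h1 h2
        · rcases inn y h2 hy with rfl | rfl
          · exact n03 (Or.inl h1)
          · exact as _ _ r50 h1
        · exact us y (Or.inr h2) hy (Or.inl h1)
        · rcases inn y h2 hy with rfl | rfl
          · exact n13 (Or.inl h1)
          · exact n15 (Or.inl h1)
      · exact ear2 x y z hx' yW yu hz' h1 h2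
  · intro x y z t hx hy hz ht h1 h2 h3
    have yu := bu y hy
    have zu := bu z hz
    have yW := BW' y hy (nd2 _ _ h1)
    have zW := BW' z hz (nd2 _ _ h2)
    rcases bW x hx with rfl | hx'
    · rcases bW t ht with rfl | ht'
      · exact htr _ _ _ h1 h2 h3
      · rcases out y h1 hy with rfl | rfl
        · exact ear3 x1 y z t W1 yW zW yu zu ht' r12 h2 h3
        · rcases ht with rfl | rfl | rfl | rfl
          · exact as _ _ h1 (by
              rcases ht' with k | k | k | k
              · exact absurd k (h.ne hT).1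
              · exact absurd k (h.ne hT).2.1
              · exact absurd k (h.ne hT).2.2.1
              · exact absurd k (h.ne hT).2.2.2.1)
          · have k := common_nb hT hg (Or.inl a0) (Or.inl a4) e04 n04 zu h2 h3
              (fun k => as _ _ k.1 a0)
            rcases (hN z).1 k with rfl | rfl | rfl | rfl | rfl | rfl
            · exact hz (Or.inr (Or.inl rfl))
            · exact hz (Or.inr (Or.inr (Or.inr rfl)))
            · exact n02 (Or.inr h3)
            · exact n03 (Or.inr h3)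
            · exact irr _ h2
            · exact n45 (Or.inl h2)
          · exact far y z (Or.inr rfl) zu zW (fun k => us z k hz (Or.inr h3)) (Or.inl h2)
              (Or.inl h3)
          · have k := common_nb' hg (Or.inr a1) (Or.inl a4) (fun e => as _ _ a1 (e ▸ a4)) n14 zu
              h2 h3 c14
            rcases (hN z).1 k with rfl | rfl | rfl | rfl | rfl | rfl
            · exact hz (Or.inr (Or.inl rfl))
            · exact hz (Or.inr (Or.inr (Or.inr rfl)))
            · exact as _ _ r12 h3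
            · exact n13 (Or.inr h3)
            · exact irr _ h2
            · exact n15 (Or.inr h3)
    · rcases bW t ht with rfl | ht'
      · rcases inn z h3 hz with rfl | rfl
        · rcases hx with rfl | rfl | rfl | rfl
          · exact htr _ _ _ h1 h2 h3
          · have k := common_nb' hg (Or.inr a3) (Or.inl a0) (fun e => as _ _ a3 (e ▸ a0))
              (fun k => n03 (ar_symm k)) yu h1 h2 c30
            rcases (hN y).1 k with rfl | rfl | rfl | rfl | rfl | rfl
            · exact hy (Or.inr (Or.inl rfl))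
            · exact hy (Or.inr (Or.inr (Or.inr rfl)))
            · exact n02 (Or.inl h1)
            · exact irr _ h2
            · exact n04 (Or.inl h1)
            · exact as _ _ r50 h1
          · exact far z y (Or.inl rfl) yu yW (fun k => us y k hy (Or.inl h1)) (Or.inr h2)
              (Or.inr h1)
          · have k := common_nb hT hg (Or.inr a3) (Or.inr a1) e13.symm
              (fun k => n13 (ar_symm k)) yu h1 h2 (fun k => as _ _ k.2 a1)
            rcases (hN y).1 k with rfl | rfl | rfl | rfl | rfl | rfl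
            · exact hy (Or.inr (Or.inl rfl))
            · exact hy (Or.inr (Or.inr (Or.inr rfl)))
            · exact n23 (Or.inl h2)
            · exact irr _ h2
            · exact n14 (Or.inl h1)
            · exact n15 (Or.inl h1)
        · exact ear3 x y z x0 hx' yW zW yu zu W0 h1 h2 r50
      · exact ear3 x y z t hx' yW zW yu zu ht' h1 h2 h3

end Pool.Agent.H94.G4
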