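import Pool.Agent.H94.G4.W6
import Pool.Agent.H72.G4.Row
import Pool.Agent.H65.G4.Rn

/-!
# The words `qmqmqm` and `qmqqqm` in the form `PCok`
-/

set_option autoImplicit false

namespace Pool.Agent.H94.G4

open Relation Pool.Agent.H13.DA Pool.Agent.H72.G4 Pool.Agent.H21.G4 Pool.Agent.H13.G4
  Pool.Agent.H65.G4 Pool.Agent.H32.G4

variable {V : Type*} [DecidableEq V] {T X : Finset (V × V × V)} {D : V → V → Prop} {a b c : V}
  {Z : List V}

omit [DecidableEq V] in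
theorem m_in (hT : Ts T D a b c) {v x y : V} (h : Cor T D v x y CT.m) (k : D x v) :
    D v y ∧ D x y := by
  obtain ⟨_, ⟨h1, h2, h3⟩ | ⟨h1, h2, h3⟩⟩ := h
  · exact ⟨h2, h3⟩
  · exact absurd k (hT.pl.asymm _ _ h1)

omit [DecidableEq V] in
theorem m_out (hT : Ts T D a b c) {v x y : V} (h : Cor T D v x y CT.m) (k : D v x) :
    D y v ∧ D y x := by
  obtain ⟨_, ⟨h1, h2, h3⟩ | ⟨h1, h2, h3⟩⟩ := h
  · exact absurd k (hT.pl.asymm _ _ h1)
  · exact ⟨h2, h3⟩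

omit [DecidableEq V] in
theorem m_in' (hT : Ts T D a b c) {v x y : V} (h : Cor T D v x y CT.m) (k : D y v) :
    D v x ∧ D y x := by
  obtain ⟨_, ⟨h1, h2, h3⟩ | ⟨h1, h2, h3⟩⟩ := h
  · exact absurd k (hT.pl.asymm _ _ h2)
  · exact ⟨h1, h3⟩

omit [DecidableEq V] in
theorem m_out' (hT : Ts T D a b c) {v x y : V} (h : Cor T D v x y CT.m) (k : D v y) :
    D x v ∧ D x y := by
  obtain ⟨_, ⟨h1, h2, h3⟩ | ⟨h1, h2, h3⟩⟩ := h
  · exact ⟨h1, h3⟩
  · exact absurd k (hT.pl.asymm _ _ h2)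

omit [DecidableEq V] in
theorem q_in (hT : Ts T D a b c) {v x y : V} (h : Cor T D v x y CT.q) (k : D x v) : D v y := by
  obtain ⟨_, ⟨h1, h2⟩ | ⟨h1, h2⟩⟩ := h
  · exact h2
  · exact absurd k (hT.pl.asymm _ _ h1)

omit [DecidableEq V] in
theorem q_out (hT : Ts T D a b c) {v x y : V} (h : Cor T D v x y CT.q) (k : D v x) : D y v := by
  obtain ⟨_, ⟨h1, h2⟩ | ⟨h1, h2⟩⟩ := h
  · exact absurd k (hT.pl.asymm _ _ h1)
  · exact h2

omit [DecidableEq V] in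
theorem q_in' (hT : Ts T D a b c) {v x y : V} (h : Cor T D v x y CT.q) (k : D y v) : D v x := by
  obtain ⟨_, ⟨h1, h2⟩ | ⟨h1, h2⟩⟩ := h
  · exact absurd k (hT.pl.asymm _ _ h2)
  · exact h1

omit [DecidableEq V] in
theorem q_out' (hT : Ts T D a b c) {v x y : V} (h : Cor T D v x y CT.q) (k : D v y) : D x v := by
  obtain ⟨_, ⟨h1, h2⟩ | ⟨h1, h2⟩⟩ := h
  · exact h1
  · exact absurd k (hT.pl.asymm _ _ h2)

omit [DecidableEq V] in
theorem sh_symm (hT : Ts T D a b c) {p q : V} (h : Sh T D p q) : Sh T D q p := by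
  obtain ⟨z, z1, z2, z3⟩ := h
  refine ⟨z, z1, ?_, z3.symm⟩
  have cx := hT.pl.disc.cx
  rcases z2 with k | k
  · exact Or.inr (cx.rot k)
  · exact Or.inl (cx.rot (cx.rot k))

/-- `red_W6` with the facts of the old digraph as `Pcb` and the 5-cycle fact -/
theorem red_W6b [Infinite V] (hM : MCw T D a b c) (hT : Ts T D a b c)
    {u x0 x1 x2 x3 x4 x5 s d : V} (hu : ¬ Tr a b c u) (hg : Good T D u)
    (hN : ∀ y, Ar D u y ↔ y = x0 ∨ y = x1 ∨ y = x2 ∨ y = x3 ∨ y = x4 ∨ y = x5)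
    (a2 : D u x2) (a3 : D x3 u) (a4 : D u x4) (a5 : D x5 u) (h : Qd T D u x0 s x1 d)
    (no : ¬ Tr a b c x0) (ni : ¬ Tr a b c x1) (r12 : D x1 x2) (r50 : D x5 x0)
    (n02 : ¬ Ar D x0 x2) (n03 : ¬ Ar D x0 x3) (n04 : ¬ Ar D x0 x4) (n13 : ¬ Ar D x1 x3)
    (n14 : ¬ Ar D x1 x4) (n15 : ¬ Ar D x1 x5) (n23 : ¬ Ar D x2 x3) (n45 : ¬ Ar D x4 x5)
    (e04 : x0 ≠ x4) (e13 : x1 ≠ x3)
    (c14 : ∀ e, ¬ Re D e → Adj T e u → Adj T e x1 → ¬ Adj T e x4)
    (c30 : ∀ e, ¬ Re D e → Adj T e u → Adj T e x3 → ¬ Adj T e x0)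
    (hb : Pcb T D u x0 s x1 d)
    (hf : ∀ n m, Ar D u n → n ≠ x0 → n ≠ x1 → ¬ Ar D n x0 → ¬ Ar D n x1 → Ar D s m → Ar D m n →
      m = u) : False := by
  have as := hT.pl.asymm
  have real : ∀ {x}, Wq x0 s x1 d x → x ≠ d → x = x0 ∨ x = s ∨ x = x1 := by
    rintro x (g | g | g | g) hx
    · exact Or.inl g
    · exact Or.inr (Or.inl g)
    · exact Or.inr (Or.inr g)
    · exact absurd g hx
  have nd1 : ∀ x y, D x y → x ≠ d := fun x y g e => h.nd (e ▸ ⟨y, Or.inl g⟩)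
  have nd2 : ∀ x y, D x y → y ≠ d := fun x y g e => h.nd (e ▸ ⟨x, Or.inr g⟩)
  refine red_W6 hM hT hu hg hN a2 a3 a4 a5 h no ni r12 r50 n02 n03 n04 n13 n14 n15 n23 n45 e04 e13
    c14 c30 hb.n1 hb.n2 ?_ ?_ ?_
  · intro x y z hx hy hyu hz h1 h2
    exact hb.e2 x y z (real hx (nd1 _ _ h1)) (real hz (nd2 _ _ h2)) hy hyu h1 h2
  · intro x y z t hx hy hz hyu hzu ht h1 h2 h3
    exact hb.e3 x y z t (real hx (nd1 _ _ h1)) (real ht (nd2 _ _ h3)) hy hz hyu hzu h1 h2 h3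
  · rintro n m (rfl | rfl) hmu _ _ k1 k2
    · exact hmu (hf n m (Or.inr a3) (fun e => as _ _ a3 (e ▸ h.uo)) e13.symm
        (fun k => n03 (ar_symm k)) (fun k => n13 (ar_symm k)) (ar_symm k2) (ar_symm k1))
    · exact hmu (hf n m (Or.inl a4) e04.symm (fun e => as _ _ a4 (e ▸ h.iu))
        (fun k => n04 (ar_symm k)) (fun k => n14 (ar_symm k)) (ar_symm k2) (ar_symm k1))

/-- the words started at the quad between the two mid corners -/
theorem rot_W6 [Infinite V] (hM : MCw T D a b c) (hT : Ts T D a b c) {u s d : V}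
    (hu : ¬ Tr a b c u) (hg : Good T D u) {x : Fin 6 → V} {w : Fin 6 → CT}
    (R : Rot T D u 5 x w) (w1 : w 1 = CT.m) (w2 : w 2 = CT.q)
    (w4 : w 4 = CT.q) (w5 : w 5 = CT.m) (no : ¬ Tr a b c (x 0)) (ni : ¬ Tr a b c (x 1))
    (h : (Qd T D u (x 0) s (x 1) d ∧ Pcb T D u (x 0) s (x 1) d) ∨
      (Qd T D u (x 1) s (x 0) d ∧ Pcb T D u (x 1) s (x 0) d))
    (hf : ∀ n m, Ar D u n → n ≠ x 0 → n ≠ x 1 → ¬ Ar D n (x 0) → ¬ Ar D n (x 1) → Ar D s m →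
      Ar D m n → m = u) : False := by
  have as := hT.pl.asymm
  have c1 : Cor T D u (x 1) (x 2) CT.m := w1 ▸ R.cor 1
  have c2 : Cor T D u (x 2) (x 3) CT.q := w2 ▸ R.cor 2
  have c4 : Cor T D u (x 4) (x 5) CT.q := w4 ▸ R.cor 4
  have c5 : Cor T D u (x 5) (x 0) CT.m := w5 ▸ R.cor 5
  have far : ∀ i j : Fin 6, j ≠ i + 1 → i ≠ j + 1 → ¬ Ar D (x i) (x j) := by
    intro i j h1 h2 k
    rcases R.adj hT hu k with ⟨e, _⟩ | ⟨e, _⟩
    · exact h1 e
    · exact h2 e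
  have nq : ∀ i : Fin 6, i ≠ i + 1 + 1 → w i = CT.q → ¬ Ar D (x i) (x (i + 1)) := by
    intro i hi hw k
    rcases R.adj hT hu k with ⟨_, e⟩ | ⟨e, _⟩
    · exact e hw
    · exact hi e
  have dum : ∀ i j : Fin 6, i ≠ j → j ≠ i + 1 → i ≠ j + 1 → ∀ e, ¬ Re D e → Adj T e u →
      Adj T e (x i) → ¬ Adj T e (x j) := by
    intro i j hij h1 h2 e k1 k2 k3 k4
    rcases rot_dummy2 hT hu R (by norm_num) hij k1 k2 k3 k4 with ⟨e, _⟩ | ⟨e, _⟩
    · exact h1 e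
    · exact h2 e
  have ne : ∀ i j : Fin 6, i ≠ j → x i ≠ x j := fun i j hij e => hij (R.inj e)
  rcases h with ⟨Q, hb⟩ | ⟨Q, hb⟩
  · have d1 := m_in hT c1 Q.iu
    have d5 := m_out' hT c5 Q.uo
    have d3 := q_out hT c2 d1.1
    have d4 := q_in' hT c4 d5.1
    exact red_W6b hM hT hu hg (nb6 R) d1.1 d3 d4 d5.1 Q no ni d1.2 d5.2
      (far 0 2 (by decide) (by decide)) (far 0 3 (by decide) (by decide))
      (far 0 4 (by decide) (by decide)) (far 1 3 (by decide) (by decide))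
      (far 1 4 (by decide) (by decide)) (far 1 5 (by decide) (by decide))
      (nq 2 (by decide) w2) (nq 4 (by decide) w4) (ne 0 4 (by decide)) (ne 1 3 (by decide))
      (dum 1 4 (by decide) (by decide) (by decide)) (dum 3 0 (by decide) (by decide) (by decide))
      hb hf
  · have d1 := m_out hT c1 Q.uo
    have d5 := m_in' hT c5 Q.iu
    have d3 := q_in hT c2 d1.1
    have d4 := q_out' hT c4 d5.1
    exact red_W6b (x0 := x 1) (x1 := x 0) (x2 := x 5) (x3 := x 4) (x4 := x 3) (x5 := x 2)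
      hM hT hu hg (fun y => (nb6 R y).trans (by tauto)) d5.1 d4 d3 d1.1 Q ni no d5.2 d1.2
      (far 1 5 (by decide) (by decide)) (far 1 4 (by decide) (by decide))
      (far 1 3 (by decide) (by decide)) (far 0 4 (by decide) (by decide))
      (far 0 3 (by decide) (by decide)) (far 0 2 (by decide) (by decide))
      (fun k => nq 4 (by decide) w4 (ar_symm k)) (fun k => nq 2 (by decide) w2 (ar_symm k))
      (ne 1 3 (by decide)) (ne 0 4 (by decide))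
      (dum 0 3 (by decide) (by decide) (by decide)) (dum 4 1 (by decide) (by decide) (by decide))
      hb (fun n m k1 k2 k3 k4 k5 k6 k7 => hf n m k1 k3 k2 k5 k4 k6 k7)

/-- **Rows `Z6` and `W6`**: a quad corner between two mid corners is not open. -/
theorem pc_W6 [Infinite V] (hM : MCw T D a b c) (hT : Ts T D a b c)
    (hin : ∀ v, In X D Z v → ¬ Tr a b c v) {u : V} (hu : In X D Z u) (hg : Good T D u)
    (hb : ∀ o s i d, Qd T D u o s i d → In X D Z o → In X D Z s → In X D Z i → Sh T D o s →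
      Sh T D s i → Pcb T D u o s i d)
    (hf : ∀ o s i d, Qd T D u o s i d → In X D Z o → In X D Z s → In X D Z i → Sh T D o s →
      Sh T D s i → ∀ n m, Ar D u n → n ≠ o → n ≠ i → ¬ Ar D n o → ¬ Ar D n i → Ar D s m →
      Ar D m n → m = u)
    {x : Fin 6 → V} {w : Fin 6 → CT} (R : Rot T D u 5 x w) (j : Fin 6)
    (w1 : w (j + 1) = CT.m) (w2 : w (j + 2) = CT.q) (w4 : w (j + 4) = CT.q)
    (w5 : w (j + 5) = CT.m) : PCok T X D Z u x j := by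
  intro f d hd hda hq ho hs hi so si
  have R' := R.shift j
  have e0 : x j = x (j + 0) := by rw [add_zero]
  rw [e0] at ho so hda hq
  rcases hq with ⟨q1, q2, q3, q4⟩ | ⟨q1, q2, q3, q4⟩
  · have Q : Qd T D u (x (j + 0)) f (x (j + 1)) d := ⟨q1, q2, q3, q4, hd, hda⟩
    exact rot_W6 hM hT (hin u hu) hg R' w1 w2 w4 w5 (hin _ ho) (hin _ hi)
      (Or.inl ⟨Q, hb _ _ _ _ Q ho hs hi so si⟩) (hf _ _ _ _ Q ho hs hi so si)
  · have Q : Qd T D u (x (j + 1)) f (x (j + 0)) d :=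
      ⟨q4, q3, q2, q1, hd, fun y => (hda y).trans (by tauto)⟩
    exact rot_W6 hM hT (hin u hu) hg R' w1 w2 w4 w5 (hin _ ho) (hin _ hi)
      (Or.inr ⟨Q, hb _ _ _ _ Q hi hs ho (sh_symm hT si) (sh_symm hT so)⟩)
      (fun n m k1 k2 k3 k4 k5 k6 k7 => hf _ _ _ _ Q hi hs ho (sh_symm hT si) (sh_symm hT so)
        n m k1 k3 k2 k5 k4 k6 k7)

end Pool.Agent.H94.G4
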